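import Mathlib

set_option autoImplicit false

namespace Pool.Agent.Results.MP_674d90_lc.Safety

/-- `Path E u l v`: the edge list `l` is a finite path from `u` to `v`. -/
inductive Path {V C : Type} (E : Set (V × C × V)) (u : V) : List (V × C × V) → V → Prop
  | nil : Path E u [] u
  | snoc {l : List (V × C × V)} {v w : V} {c : C} :
      Path E u l v → (v, c, w) ∈ E → Path E u (l ++ [(v, c, w)]) w

/-- `S` picks an outgoing edge after every finite path that ends in a node of Protagonist. -/
def IsStrat {V C : Type} (P : Set V) (E : Set (V × C × V))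
    (S : V → List (V × C × V) → V × C × V) : Prop :=
  ∀ u l v, Path E u l v → v ∈ P → S u l ∈ E ∧ (S u l).1 = v

/-- Every infinite play from `u` consistent with `S` has its colour sequence in `W`. -/
def Wins {V C : Type} (P : Set V) (E : Set (V × C × V)) (W : Set (ℕ → C))
    (S : V → List (V × C × V) → V × C × V) (u : V) : Prop :=
  ∀ π : ℕ → V × C × V, (π 0).1 = u → (∀ i, π i ∈ E ∧ (π (i + 1)).1 = (π i).2.2) →
    (∀ i, (π i).1 ∈ P → π i = S u ((List.range i).map π)) → (fun i => (π i).2.1) ∈ W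

/-- `S` is an optimal strategy built on the memory structure `(M, m, δ)`. -/
def OptOn {V C M : Type} (P : Set V) (E : Set (V × C × V)) (W : Set (ℕ → C))
    (S : V → List (V × C × V) → V × C × V) (m : M) (δ : M → V × C × V → M) : Prop :=
  IsStrat P E S ∧ (∀ u, (∃ S', IsStrat P E S' ∧ Wins P E W S' u) → Wins P E W S u) ∧
    ∀ u l u' l' v, Path E u l v → Path E u' l' v → v ∈ P → l.foldl δ m = l'.foldl δ m →
      S u l = S u' l'

/-- `k` states of general memory suffice in every arena. -/
def Gen {C : Type} (W : Set (ℕ → C)) (k : ℕ) : Prop :=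
  ∀ (V : Type) [Finite V] [Nonempty V] (P : Set V) (E : Set (V × C × V)),
    (∀ v, ∃ c w, (v, c, w) ∈ E) → ∃ S, ∃ (m : Fin k) (δ : Fin k → V × C × V → Fin k),
      OptOn P E W S m δ

/-- `k` states of chromatic memory suffice in every arena. -/
def Chr {C : Type} (W : Set (ℕ → C)) (k : ℕ) : Prop :=
  ∀ (V : Type) [Finite V] [Nonempty V] (P : Set V) (E : Set (V × C × V)),
    (∀ v, ∃ c w, (v, c, w) ∈ E) → ∃ S, ∃ (m : Fin k) (δ : Fin k → C → Fin k),
      OptOn P E W S m fun x e => δ x e.2.1

/-- The safety condition with set `F` of forbidden finite words. -/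
def Safe {C : Type} (F : Set (List C)) : Set (ℕ → C) := {α | ∀ i, (List.range i).map α ∉ F}

section Aux

open Sum

/-- colours -/
abbrev Col := Bool ⊕ Fin 2

/-- one step of the counter with a bit -/
def st (q : ℤ × Fin 2) : Col → ℤ × Fin 2
  | inl true => (q.1 + 1, if q.1 = 0 then q.2 + 1 else q.2)
  | inl false => (q.1 - 1, q.2)
  | inr b => if q.1 = 0 ∧ q.2 ≠ b then (-1, q.2) else q

/-- forbidden words -/
def Fb : Set (List Col) := {l | (l.foldl st (0, 0)).1 < 0}

/-- the order on configurations -/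
def le (q r : ℤ × Fin 2) : Prop := q.1 < r.1 ∨ q = r

lemma le_tr {p q r : ℤ × Fin 2} (a : le p q) (b : le q r) : le p r := by
  rcases a with a | rfl
  · rcases b with b | rfl
    exacts [Or.inl (a.trans b), Or.inl a]
  · exact b

lemma st_mono {q r : ℤ × Fin 2} (h : le q r) (h0 : 0 ≤ q.1) (c : Col) : le (st q c) (st r c) := by
  rcases h with h | rfl
  · left
    rcases c with (_ | _) | b <;> simp only [st]
    · omega
    · omega
    · rw [if_neg (show ¬ (r.1 = 0 ∧ r.2 ≠ b) by omega)]
      split_ifs <;> omega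
  · exact Or.inr rfl

variable {V C : Type}

/-- last node -/
def last (u : V) (l : List (V × C × V)) : V := l.foldl (fun _ e => e.2.2) u

lemma Path.eq_last {E : Set (V × C × V)} {u v : V} {l : List (V × C × V)} (h : Path E u l v) :
    last u l = v := by
  cases h <;> simp [last]

lemma play_path {E : Set (V × C × V)} {u : V} {π : ℕ → V × C × V} (h0 : (π 0).1 = u)
    (h : ∀ i, π i ∈ E ∧ (π (i + 1)).1 = (π i).2.2) (i : ℕ) :
    Path E u ((List.range i).map π) (π i).1 := by
  induction i with
  | zero => exact h0 ▸ Path.nil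
  | succ i ih =>
    rw [List.range_succ, List.map_append, (h i).2]
    exact ih.snoc (h i).1

/-- history generated by a policy -/
def hist {α : Type} (G : List α → α) : ℕ → List α
  | 0 => []
  | j + 1 => hist G j ++ [G (hist G j)]

lemma hist_eq {α : Type} (G : List α → α) (j : ℕ) :
    (List.range j).map (fun i => G (hist G i)) = hist G j := by
  induction j with
  | zero => rfl
  | succ j ih => rw [List.range_succ, List.map_append, ih]; rfl

lemma hist_len {α : Type} (G : List α → α) (j : ℕ) : (hist G j).length = j := by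
  rw [← hist_eq]; simp

lemma hist_play {E : Set (V × C × V)} {u : V} {G : List (V × C × V) → V × C × V}
    (h : ∀ l v, Path E u l v → G l ∈ E ∧ (G l).1 = v) (j : ℕ) :
    Path E u (hist G j) (G (hist G j)).1 ∧ G (hist G j) ∈ E ∧
      (G (hist G (j + 1))).1 = (G (hist G j)).2.2 := by
  have k : ∀ j, Path E u (hist G j) (G (hist G j)).1 := by
    intro j
    induction j with
    | zero => exact (h _ _ Path.nil).2.symm ▸ Path.nil
    | succ j ih =>
      have := ih.snoc (h _ _ ih).1
      exact (h _ _ this).2.symm ▸ this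
  exact ⟨k j, (h _ _ (k j)).1, (h _ _ ((k j).snoc (h _ _ (k j)).1)).2⟩

/-- invariant sets -/
def Post (P : Set V) (E : Set (V × Col × V)) (Y : V → ℤ × Fin 2 → Prop) : Prop :=
  ∀ v q, Y v q → 0 ≤ q.1 ∧ (v ∈ P → ∃ c w, (v, c, w) ∈ E ∧ Y w (st q c)) ∧
    (v ∉ P → ∀ c w, (v, c, w) ∈ E → Y w (st q c))

lemma win_post {P : Set V} {E : Set (V × Col × V)} (hE : ∀ v, ∃ c w, (v, c, w) ∈ E) {u : V}
    {S : V → List (V × Col × V) → V × Col × V} (hS : IsStrat P E S) (hW : Wins P E (Safe Fb) S u) :
    ∃ Y, Post P E Y ∧ Y u (0, 0) := by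
  classical
  choose c w hcw using hE
  refine ⟨fun v q => ∃ G j, (∀ l v, Path E u l v → (G l ∈ E ∧ (G l).1 = v) ∧ (v ∈ P → G l = S u l))
    ∧ Path E u (hist G j) v ∧ q = ((hist G j).map fun e => e.2.1).foldl st (0, 0), ?_,
    fun l => if last u l ∈ P then S u l else (last u l, c (last u l), w (last u l)), 0,
    fun l v h => ?_, Path.nil, rfl⟩
  · rintro v _ ⟨G, j, hG, hp, rfl⟩
    have hh := hist_play fun l v h => (hG l v h).1
    refine ⟨?_, fun hv => ?_, fun hv c w he => ?_⟩
    · have := hW (fun i => G (hist G i)) (hG _ _ Path.nil).1.2 (fun i => (hh i).2) (fun i hi => by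
        rw [hist_eq]; exact (hG _ _ (hh i).1).2 hi) j
      rw [← hist_eq, List.map_map]
      exact not_lt.1 this
    · obtain rfl := (hG _ _ hp).1.2
      exact ⟨_, _, (hh j).2.1, G, j + 1, hG, hp.snoc (hh j).2.1, by simp [hist]⟩
    · have e : ∀ i ≤ j, hist (Function.update G (hist G j) (v, c, w)) i = hist G i := by
        intro i hi
        induction i with
        | zero => rfl
        | succ i ih =>
          rw [hist, ih (by omega), Function.update_of_ne, hist]
          intro h
          have := congrArg List.length h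
          rw [hist_len, hist_len] at this
          omega
      refine ⟨Function.update G (hist G j) (v, c, w), j + 1, fun l x h => ?_, ?_, ?_⟩
      · by_cases k : l = hist G j
        · subst k
          obtain rfl := h.eq_last.symm.trans hp.eq_last
          simp [he, hv]
        · rw [Function.update_of_ne k]; exact hG l x h
      · rw [hist, e j le_rfl, Function.update_self]; exact hp.snoc he
      · simp [hist, e j le_rfl]
  · simp only [h.eq_last]
    split_ifs with hv
    · exact ⟨hS u l v h hv, fun _ => rfl⟩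
    · exact ⟨⟨hcw v, rfl⟩, fun k => absurd k hv⟩

theorem gen : Gen (Safe Fb) 2 := by
  intro V _ _ P E hE
  obtain ⟨X, hX⟩ : ∃ X : V → ℤ × Fin 2 → Prop, ∀ v q, X v q ↔ ∃ Y, Post P E Y ∧ Y v q :=
    ⟨_, fun _ _ => Iff.rfl⟩
  have pX : Post P E X := by
    intro v q h
    obtain ⟨Y, a, b⟩ := (hX v q).1 h
    refine ⟨(a v q b).1, fun hv => ?_, fun hv c w he => (hX _ _).2 ⟨Y, a, (a v q b).2.2 hv c w he⟩⟩
    obtain ⟨c, w, d, e⟩ := (a v q b).2.1 hv
    exact ⟨c, w, d, (hX _ _).2 ⟨Y, a, e⟩⟩
  have hν : ∀ v, ∃ n : ℤ, ∀ q, ∃ m, X v q → X v (n, m) ∧ le (n, m) q := by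
    intro v
    by_cases h : ∃ n m, X v (n, m)
    · obtain ⟨n, ⟨m, a⟩, b⟩ := Int.exists_least_of_bdd (P := fun n => ∃ m, X v (n, m))
        ⟨0, fun z ⟨m, hz⟩ => (pX _ _ hz).1⟩ h
      refine ⟨n, fun q => ?_⟩
      by_cases e : n = q.1
      · exact ⟨q.2, fun hq => by rw [e]; exact ⟨hq, Or.inr rfl⟩⟩
      · exact ⟨m, fun hq => ⟨a, Or.inl ((b q.1 ⟨q.2, hq⟩).lt_of_ne e)⟩⟩
    · exact ⟨0, fun q => ⟨0, fun hq => absurd ⟨q.1, q.2, hq⟩ h⟩⟩
  choose ν μ hμ using hν
  have hσ : ∀ v m, ∃ e : V × Col × V, e ∈ E ∧ e.1 = v ∧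
      (v ∈ P → X v (ν v, m) → X e.2.2 (st (ν v, m) e.2.1)) := by
    intro v m
    by_cases h : v ∈ P ∧ X v (ν v, m)
    · obtain ⟨c, w, a, b⟩ := (pX _ _ h.2).2.1 h.1
      exact ⟨_, a, rfl, fun _ _ => b⟩
    · obtain ⟨c, w, a⟩ := hE v
      exact ⟨_, a, rfl, fun a b => absurd ⟨a, b⟩ h⟩
  choose σ h1 h2 h3 using hσ
  obtain ⟨δ, hδ⟩ : ∃ δ : Fin 2 → V × Col × V → Fin 2, ∀ m e,
    δ m e = μ e.2.2 (st (ν e.1, m) e.2.1) := ⟨_, fun _ _ => rfl⟩
  refine ⟨fun u l => σ (last u l) (l.foldl δ 0), 0, δ, fun u l v h _ => ⟨h1 _ _, ?_⟩, ?_, ?_⟩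
  · rw [h2, h.eq_last]
  · rintro u ⟨S, a, b⟩ π p0 p1 p2
    have x0 := (hX _ _).2 (win_post hE a b)
    have key : ∀ i, X (π i).1 (ν (π i).1, ((List.range i).map π).foldl δ 0) ∧
        le (ν (π i).1, ((List.range i).map π).foldl δ 0)
          (((List.range i).map fun i => (π i).2.1).foldl st (0, 0)) := by
      intro i
      induction i with
      | zero =>
        obtain ⟨c, d | d⟩ := hμ u _ x0
        · exact absurd (pX _ _ c).1 (not_le.2 d)
        · rw [p0, (Prod.mk.inj d).1]; exact ⟨x0, Or.inr rfl⟩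
      | succ i ih =>
        simp only [List.range_succ, List.map_append, List.foldl_append, List.map_cons,
          List.map_nil, List.foldl_cons, List.foldl_nil, (p1 i).2, hδ]
        have k := hμ (π i).2.2 (st (ν (π i).1, ((List.range i).map π).foldl δ 0) (π i).2.1) (by
          by_cases hv : (π i).1 ∈ P
          · have e := p2 i hv
            simp only [(play_path p0 p1 i).eq_last] at e
            have := h3 _ _ hv ih.1
            rwa [← e] at this
          · exact (pX _ _ ih.1).2.2 hv _ _ (p1 i).1)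
        exact ⟨k.1, le_tr k.2 (st_mono ih.2 (pX _ _ ih.1).1 _)⟩
    intro i hi
    have c := (pX _ _ (key i).1).1
    have hi' : (((List.range i).map fun i => (π i).2.1).foldl st (0, 0)).1 < 0 := hi
    rcases (key i).2 with d | d
    · omega
    · rw [← d] at hi'; omega
  · intro u l u' l' v a b _ e
    simp only [a.eq_last, b.eq_last, e]

/-- alive along a word -/
def Al (q : ℤ × Fin 2) (l : List Col) (r : ℤ × Fin 2) : Prop :=
  (∀ j, 0 ≤ ((l.take j).foldl st q).1) ∧ l.foldl st q = r

lemma Al.app {p q r : ℤ × Fin 2} {l l' : List Col} (a : Al p l q) (b : Al q l' r) :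
    Al p (l ++ l') r := by
  refine ⟨fun j => ?_, by rw [List.foldl_append, a.2, b.2]⟩
  rw [List.take_append]
  rcases le_total j l.length with h | h
  · simpa [Nat.sub_eq_zero_of_le h] using a.1 j
  · rw [List.take_of_length_le h, List.foldl_append, a.2]; exact b.1 _

lemma al1 {q : ℤ × Fin 2} {c : Col} (a : 0 ≤ q.1) (b : 0 ≤ (st q c).1) : Al q [c] (st q c) :=
  ⟨fun j => by cases j <;> simp [a, b], rfl⟩

lemma al_inc (k : ℕ) (n : ℤ) (b : Fin 2) (h : 0 ≤ n) :
    Al (n, b) (List.replicate (k + 1) (inl true)) (n + k + 1, if n = 0 then b + 1 else b) := by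
  induction k with
  | zero => simpa [st] using al1 (q := (n, b)) (c := inl true) h (by simp [st]; omega)
  | succ k ih =>
    rw [List.replicate_succ']
    have := ih.app (al1 (c := inl true) (by simp; omega) (by simp [st]; omega))
    simp only [st, if_neg (show ¬ n + k + 1 = 0 by omega)] at this
    simpa [add_assoc] using this

lemma al_dec (k : ℕ) (n : ℤ) (b : Fin 2) (h : k + 1 ≤ n) :
    Al (n, b) (List.replicate (k + 1) (inl false)) (n - k - 1, b) := by
  induction k with
  | zero => simpa [st] using al1 (q := (n, b)) (c := inl false) (by omega) (by simp [st]; omega)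
  | succ k ih =>
    rw [List.replicate_succ']
    have := (ih (by omega)).app (al1 (c := inl false) (by simp; omega) (by simp [st]; omega))
    simpa [st, sub_sub] using this

lemma words (k : ℕ) : ∃ w : Fin 2 → List Col, (∀ b, Al (0, 0) (w b) (0, b)) ∧
    ∀ (m : Fin k) (δ : Fin k → Col → Fin k), (w 0).foldl δ m = (w 1).foldl δ m := by
  obtain ⟨a, a', ne, e⟩ := Finite.exists_ne_map_eq_of_infinite
    fun (a : ℕ) (δ : Fin k → Col → Fin k) (m : Fin k) =>
      (List.replicate (a + 1) (inl true : Col)).foldl δ m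
  wlog lt : a < a' generalizing a a'
  · exact this a' a ne.symm e.symm (by omega)
  refine ⟨![List.replicate (a + 1) (inl true) ++ List.replicate (a + 1) (inl false) ++
    List.replicate (a' + 1) (inl true) ++ List.replicate (a' + 1) (inl false),
    List.replicate (a' + 1) (inl true) ++ List.replicate (a + 1) (inl false) ++
    List.replicate (a + 1) (inl true) ++ List.replicate (a' + 1) (inl false)], ?_, fun m δ => ?_⟩
  · rw [Fin.forall_fin_two]
    constructor
    · convert (((al_inc a 0 0 le_rfl).app (al_dec a _ _ (by omega))).app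
        (al_inc a' _ _ (by omega))).app (al_dec a' _ _ (by omega)) using 2
      · rfl
      · ring
      · simp
    · convert (((al_inc a' 0 0 le_rfl).app (al_dec a _ _ (by omega))).app
        (al_inc a _ _ (by omega))).app (al_dec a' _ _ (by omega)) using 2
      · rfl
      · ring
      · rw [if_neg (by omega)]; simp
  · simp only [Matrix.cons_val, List.foldl_append, fun m => congrFun (congrFun e δ) m]

theorem chr (k : ℕ) : ¬ Chr (Safe Fb) k := by
  intro h
  obtain ⟨w, w1, w2⟩ := words k
  obtain ⟨T, hT⟩ : ∃ T : Set (List Col), T = {l | l <:+ w 0} ∪ {l | l <:+ w 1} := ⟨_, rfl⟩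
  have fin : Finite T := by
    rw [hT]
    refine (Set.Finite.union ?_ ?_).to_subtype <;>
      exact (List.finite_toSet (List.tails _)).subset fun l hl => by simpa using hl
  have mw : ∀ b, w b ∈ T := by
    rw [hT, Fin.forall_fin_two]
    exact ⟨Or.inl List.suffix_rfl, Or.inr List.suffix_rfl⟩
  have : Nonempty T := ⟨⟨_, mw 0⟩⟩
  obtain ⟨E, hE⟩ : ∃ E : Set (T × Col × T), ∀ e, e ∈ E ↔
    e.1.1 = e.2.1 :: e.2.2.1 ∨ (e.1.1 = [] ∧ e.2.2.1 = [] ∧ ∃ b, e.2.1 = inr b) :=
    ⟨Set.ofPred _, fun _ => Iff.rfl⟩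
  have out : ∀ (b : Fin 2) (v : T), ∃ e ∈ E, e.1 = v ∧ (v.1 = [] → e.2.1 = inr b) := by
    rintro b ⟨_ | ⟨c, l⟩, hv⟩
    · exact ⟨(_, inr b, ⟨_, hv⟩), (hE _).2 (Or.inr ⟨rfl, rfl, b, rfl⟩), rfl, fun _ => rfl⟩
    · refine ⟨(_, c, ⟨l, ?_⟩), (hE _).2 (Or.inl rfl), rfl, by simp⟩
      rw [hT] at hv ⊢
      exact hv.imp (List.suffix_cons c l).trans (List.suffix_cons c l).trans
  have forced : ∀ (u : T) (π : ℕ → T × Col × T), (π 0).1 = u →
      (∀ i, π i ∈ E ∧ (π (i + 1)).1 = (π i).2.2) → ∀ i, (π i).1.1 = u.1.drop i ∧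
      (i ≤ u.1.length → ((List.range i).map fun i => (π i).2.1) = u.1.take i) := by
    intro u π p0 p1 i
    induction i with
    | zero => simp [p0]
    | succ i ih =>
      rw [(p1 i).2, ← List.tail_drop, ← ih.1, List.range_succ, List.map_append, List.take_add_one,
        ← List.head?_drop, ← ih.1]
      rcases (hE _).1 (p1 i).1 with a | a
      · exact ⟨by simp [a], fun hi => by simp [a, ih.2 (by omega)]⟩
      · refine ⟨by simp [a.1, a.2.1], fun hi => ?_⟩
        have := congrArg List.length (ih.1.symm.trans a.1)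
        simp at this
        omega
  obtain ⟨S, m, δ, s1, s2, s3⟩ := h T Set.univ E fun v =>
    let ⟨e, a, b, _⟩ := out 0 v; ⟨e.2.1, e.2.2, b ▸ a⟩
  choose o o1 o2 o3 using out
  have key : ∀ b, ∃ l v, Path E ⟨_, mw b⟩ l v ∧ v.1 = [] ∧ l.map (fun e => e.2.1) = w b ∧
      (S ⟨_, mw b⟩ l).2.1 = inr b := by
    intro b
    have win := s2 ⟨_, mw b⟩ ⟨fun u l => o b (last u l),
      fun u l v h _ => ⟨o1 _ _, (o2 _ _).trans h.eq_last⟩, fun π p0 p1 p2 i => by
        have f := forced _ π p0 p1
        change ¬ (List.foldl st (0, 0) _).1 < 0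
        rcases le_total i (w b).length with hi | hi
        · rw [(f i).2 hi]; exact not_lt.2 ((w1 b).1 i)
        · suffices ((List.range i).map fun i => (π i).2.1).foldl st (0, 0) = (0, b) by simp [this]
          induction i, hi using Nat.le_induction with
          | base => rw [(f _).2 le_rfl, List.take_length, (w1 b).2]
          | succ i hi ih =>
            have e := p2 i trivial
            simp only [(play_path p0 p1 i).eq_last] at e
            have := o3 b (π i).1 (by rw [(f i).1]; exact List.drop_of_length_le hi)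
            rw [← e] at this
            simp [List.range_succ, ih, this, st]⟩
    have hh := hist_play (G := S ⟨_, mw b⟩) fun l v h => s1 _ l v h trivial
    have p0 := (s1 _ _ _ (Path.nil (u := ⟨_, mw b⟩)) trivial).2
    have f := forced _ (fun i => S ⟨_, mw b⟩ (hist (S ⟨_, mw b⟩) i)) p0 (fun i => (hh i).2)
      (w b).length
    have g := win _ p0 (fun i => (hh i).2) (fun i _ => by rw [hist_eq]) ((w b).length + 1)
    have f1 := f.1.trans List.drop_length
    have f2 := (f.2 le_rfl).trans List.take_length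
    refine ⟨_, _, (hh _).1, f1, by rw [← hist_eq, List.map_map]; exact f2, ?_⟩
    rcases (hE _).1 (hh (w b).length).2.1 with a | ⟨-, -, c, a⟩
    · simp [f1] at a
    · by_contra ne
      apply g
      change (List.foldl st (0, 0) _).1 < 0
      rw [List.range_succ, List.map_append, f2, List.foldl_append, (w1 b).2]
      rw [a] at ne
      simp [a, st, show b ≠ c from fun e => ne (by rw [e])]
  obtain ⟨l, v, a1, a2, a3, a4⟩ := key 0
  obtain ⟨l', v', b1, b2, b3, b4⟩ := key 1
  obtain rfl : v = v' := Subtype.ext (a2.trans b2.symm)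
  have := s3 _ _ _ _ _ a1 b1 trivial (by
    have := w2 m δ
    rwa [← a3, ← b3, List.foldl_map, List.foldl_map] at this)
  rw [this, b4] at a4
  simp at a4

end Aux

/-- A safety condition with finite general memory and infinite chromatic memory. -/
theorem result : ∃ (C : Type) (_ : Finite C) (_ : Nonempty C) (F : Set (List C)),
    (∃ k, Gen (Safe F) k) ∧ ∀ k, ¬ Chr (Safe F) k :=
  ⟨Col, inferInstance, inferInstance, Fb, ⟨2, gen⟩, chr⟩

end Pool.Agent.Results.MP_674d90_lc.Safety
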